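import Pool.Agent.ARC.StmtsP
import Pool.Agent.ARC.DefsP
import Pool.Agent.Helper40_ZES.FIN

/-!
Squad ARC, row ARG: the case split between the finite places and the archimedean places, and the
finite theorem for all large primes.
-/

namespace Pool.Agent.ARC.H49

open scoped BigOperators InnerProductSpace
open Pool.Agent Pool.Agent.THS Pool.Agent.ZES Pool.Agent.ZES.H40

/-- The finite theorem for all large primes `l` (`ZES.FinStatement` is the case of one prime). -/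
def FinAllStatement : Prop :=
  ∀ (g : ℕ) (σ : ℝ) (G : ℕ → ℕ), ∃ n : ℕ, ∀ l : ℕ, l.Prime → Odd l → n < l →
    ∀ c d : ℕ, 0 < c → ∃ B : ℕ,
    ∀ (K : Type) [Field K] [NumberField K], Module.finrank ℚ K ≤ d →
    ∀ (φ : K →+* ℂ) (τ : Matrix (Fin g) (Fin g) ℂ), Siegel τ →
    ∀ z : Fin g → ℂ, (∃ N : ℕ, 0 < N ∧ InLat τ (fun i => (N : ℂ) * z i)) →
    ∀ (S T : Finset (NumberField.FinitePlace K)) (ev t m : NumberField.FinitePlace K → ℕ)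
      (x : SZG.Idx g → SZG.Ch g × SZG.Ch g → K),
    (∀ i : SZG.Idx g, S.Nonempty ∨ i.2 = 0 → x i ≠ 0 ∧
      ∃ μ : ℂ, ∀ ab, φ (x i ab) = μ * Vab τ ab.1 ab.2 (SZG.gam τ z l i)) →
    (∀ v ∈ T, v.val 2 = 1 ∧ ∀ k : ℤ, PC v.val (x (c * k, 0, 0)) (x 0)) →
    (∀ v ∈ S, v.val 2 = 1 ∧ 1 ≤ ev v ∧ 1 ≤ t v ∧ 1 ≤ m v ∧ m v ≤ G (t v) ∧
      (∀ k : ℤ, SZG.CM v.val (x ((m v : ℤ) * k, 0, 0)) (x 0)) ∧
      ∃ p q : Fin g → ℤ, (∃ i, ¬ (l : ℤ) ∣ p i ∨ ¬ (l : ℤ) ∣ q i) ∧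
        ∀ u : ℤ, SZG.TC v.val ((qv v ^ ev v)⁻¹) (x (u • ((0, p, q) : SZG.Idx g))) (x 0)) →
    Real.log (Height.mulHeight (x 0))
      ≤ σ * (∑ v ∈ T, lN v + ∑ v ∈ S, (ev v : ℝ) / (t v : ℝ) * lN v) →
    (∃ M : ℕ, 1 ≤ M ∧ M ≤ B ∧ InLat τ (fun i => (M : ℂ) * z i)) ∨
    S.Nonempty ∧ ∃ W : Submodule ℂ (Fin g → ℂ), W ≠ ⊥ ∧ W ≠ ⊤ ∧ SubAV τ W ∧
      (∃ M : ℕ, 1 ≤ M ∧ M ≤ B ∧ ∃ u ∈ W, InLat τ (M • z - u)) ∧
      ∃ k : ℕ, 1 ≤ k ∧ k ≤ B ∧ ∀ v : Fin g → ℂ,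
        (∀ f ∈ RR τ k, (∀ w ∈ W, f w = 0) → fderiv ℂ f 0 v = 0) → v ∈ W

/-- The finite theorem for all large primes (the proof is that of `ZES.H40.fin`). -/
theorem finAll (hG : SZG.Szg3Statement) (hZ : ZetStmt) (h2 : ThsStatement) :
    FinAllStatement := by
  intro g σ G
  have hσ : 0 ≤ max σ 0 := le_max_right _ _
  obtain ⟨n, hn⟩ := hG g (2 * max σ 0) G
  refine ⟨n + 2, fun l hl2 hodd hl1 => ?_⟩
  obtain ⟨c1, hc1, hn⟩ := hn l hl2 hodd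
  intro c d hc
  obtain ⟨B1, hB1⟩ := hn d
  obtain ⟨B2, hB2⟩ := h2 g d c (2 * max σ 0) hc
  have hl0 : 1 ≤ l ^ 2 := Nat.one_le_pow _ _ (by omega)
  obtain ⟨B3, hB3⟩ := hZ g (4 * l ^ 2) ⟨2 * l ^ 2, by ring⟩ (by omega)
  refine ⟨B1 + B2 + c1 * B3 + B3 + 1, ?_⟩
  intro K _ _ hd φ τ hτ z hz S T ev t m x hx hT hS hH
  have hTn : 0 ≤ ∑ v ∈ T, lN v := Finset.sum_nonneg fun v _ => lN_nonneg v
  have hSn : 0 ≤ ∑ v ∈ S, (ev v : ℝ) / (t v : ℝ) * lN v :=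
    Finset.sum_nonneg fun v _ => mul_nonneg (div_nonneg (Nat.cast_nonneg _) (Nat.cast_nonneg _))
      (lN_nonneg v)
  have hH' : Real.log (Height.mulHeight (x 0))
      ≤ max σ 0 * (∑ v ∈ T, lN v + ∑ v ∈ S, (ev v : ℝ) / (t v : ℝ) * lN v) :=
    hH.trans (mul_le_mul_of_nonneg_right (le_max_left _ _) (add_nonneg hTn hSn))
  by_cases hcase : ∑ v ∈ S, (ev v : ℝ) / (t v : ℝ) * lN v ≤ ∑ v ∈ T, lN v
  · -- toric case
    left
    have h3 := hB2 K hd φ τ hτ z hz (fun k => x (k, 0, 0)) (fun k => (hx (k, 0, 0) (Or.inr rfl)).1)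
      (fun k => by
        obtain ⟨μ, hμ⟩ := (hx (k, 0, 0) (Or.inr rfl)).2
        refine ⟨μ, fun ab => ?_⟩
        rw [hμ ab]
        congr 1
        congr 1
        funext r
        simp [SZG.gam])
      T (fun v hv => (hT v hv).1) (fun v hv k => (hT v hv).2 k) (by
        show Real.log (Height.mulHeight (x (0, 0, 0))) ≤ _
        have h0 : ((0, 0, 0) : SZG.Idx g) = 0 := rfl
        rw [h0]
        refine hH'.trans ?_
        nlinarith)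
    obtain ⟨M, hM1, hM2, hM3⟩ := h3
    exact ⟨M, hM1, by omega, hM3⟩
  push Not at hcase
  have hSne : S.Nonempty := by
    by_contra hne
    rw [Finset.not_nonempty_iff_eq_empty] at hne
    rw [hne, Finset.sum_empty] at hcase
    linarith
  rcases Nat.eq_zero_or_pos g with hg | hg
  · subst hg
    left
    exact ⟨1, le_refl _, by omega, fun _ => 0, fun _ => 0, fun i => i.elim0⟩
  have hx' : ∀ i : SZG.Idx g, x i ≠ 0 ∧
    ∃ μ : ℂ, ∀ ab, φ (x i ab) = μ * Vab τ ab.1 ab.2 (SZG.gam τ z l i) :=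
    fun i => hx i (Or.inl hSne)
  rcases hB1 K hd φ τ hτ z hz x (fun i => (hx' i).1) (fun i => (hx' i).2) S ev t m hS (by
      refine hH'.trans ?_
      nlinarith) with ⟨M, hM1, hM2, hM3⟩ | ⟨F, hF1, hF2⟩
  · left
    exact ⟨M, hM1, by omega, hM3⟩
  have hpos : 0 < 2 ^ g * l ^ (2 * g) - n * l ^ (2 * g - 1) := by
    have e1 : l ^ (2 * g) = l * l ^ (2 * g - 1) := by
      rw [← pow_succ']
      congr 1
      omega
    have e2 : 0 < l ^ (2 * g - 1) := pow_pos (by omega) _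
    have e3 : 1 ≤ 2 ^ g := Nat.one_le_two_pow
    have e4 : n * l ^ (2 * g - 1) < 2 ^ g * l ^ (2 * g) := by
      rw [e1]
      calc n * l ^ (2 * g - 1) < l * l ^ (2 * g - 1) :=
            Nat.mul_lt_mul_of_pos_right (by omega) e2
        _ = 1 * (l * l ^ (2 * g - 1)) := (one_mul _).symm
        _ ≤ 2 ^ g * (l * l ^ (2 * g - 1)) := Nat.mul_le_mul_right _ e3
    omega
  obtain ⟨hdiff, hper, hvan⟩ := hF2 ⟨0, hpos⟩
  have hne := hF1.ne_zero ⟨0, hpos⟩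
  generalize F ⟨0, hpos⟩ = F0 at hdiff hper hvan hne
  have hRR : F0 ∈ RR τ (2 * (4 * l ^ 2)) := by
    refine ⟨hdiff, fun w p q => ?_⟩
    have h1 := hper w p q
    have e1 : F0 (w + pr τ p q) = F0 (fun i => w i + ((p i : ℂ) + ∑ j, τ i j * (q j : ℂ))) := rfl
    rw [e1, h1]
    congr 2
    push_cast
    ring
  obtain ⟨y, hy⟩ := Function.ne_iff.1 hne
  have hz1 : ∃ N : ℕ, 0 < N ∧ InLat τ (fun i => (N : ℂ) * (c1 • z) i) := by
    obtain ⟨N, hN, p, q, hpq⟩ := hz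
    refine ⟨N, hN, fun i => (c1 : ℤ) * p i, fun i => (c1 : ℤ) * q i, fun i => ?_⟩
    have h4 : (N : ℂ) * z i = (p i : ℂ) + ∑ j, τ i j * (q j : ℂ) := hpq i
    have h5 : (N : ℂ) * (c1 • z) i = (c1 : ℂ) * ((N : ℂ) * z i) := by
      rw [Pi.smul_apply, nsmul_eq_mul]
      ring
    show (N : ℂ) * (c1 • z) i = (((c1 : ℤ) * p i : ℤ) : ℂ)
      + ∑ j, τ i j * (((c1 : ℤ) * q j : ℤ) : ℂ)
    rw [h5, h4, mul_add, Finset.mul_sum]
    push_cast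
    congr 1
    refine Finset.sum_congr rfl fun j _ => ?_
    ring
  have hvan1 : ∀ k : ℕ, F0 (fun i => (k : ℂ) * (c1 • z) i) = 0 := fun k => by
    have h5 : (fun i => (k : ℂ) * (c1 • z) i) = fun i => (k : ℂ) * ((c1 : ℂ) * z i) := by
      funext i
      rw [Pi.smul_apply, nsmul_eq_mul]
    rw [h5]
    exact hvan k
  obtain ⟨W, hW1, hW2, ⟨M, hM1, hM2, u, hu, hlat⟩, k, hk1, hk2, hk3⟩ :=
    hB3 τ hτ (c1 • z) F0 hRR (ZES.H19.van_int hRR hz1 hvan1) ⟨y, hy⟩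
  have hcM : c1 * M ≤ c1 * B3 := Nat.mul_le_mul_left c1 hM2
  have e12 : (c1 * M) • z - u = M • c1 • z - u := by
    rw [mul_comm, mul_smul]
  by_cases hW : W = ⊥
  · left
    refine ⟨c1 * M, Nat.mul_pos hc1 hM1, by omega, ?_⟩
    subst hW
    have h0 : u = 0 := (Submodule.mem_bot ℂ).1 hu
    subst h0
    have e1 : (fun i => ((c1 * M : ℕ) : ℂ) * z i) = (c1 * M) • z - 0 := by
      funext i
      rw [sub_zero, Pi.smul_apply, nsmul_eq_mul]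
    rw [e1, e12]
    exact hlat
  · right
    refine ⟨hSne, W, hW, hW1, hW2, ⟨c1 * M, Nat.mul_pos hc1 hM1, by omega, u, hu, ?_⟩, k, hk1,
      by omega, fun v hv => hk3 v fun f hf hf0 => hv f hf fun w hw => ?_⟩
    · rw [e12]
      exact hlat
    · have := hf0 0 w hw
      rw [zero_smul, zero_add] at this
      exact this

/-- **Row ARG.** The theorem with several archimedean places. -/
theorem arg (hA : ArfStatement) (hF : FinAllStatement) : ArgStatement := by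
  intro g σ G
  have hσ : 0 ≤ max σ 0 := le_max_right _ _
  obtain ⟨n1, hn1⟩ := hA g (2 * max σ 0)
  obtain ⟨n2, hn2⟩ := hF g (2 * max σ 0) G
  obtain ⟨l, hl1, hl2⟩ := Nat.exists_infinite_primes (n1 + n2 + 3)
  have hodd : Odd l := hl2.odd_of_ne_two (by omega)
  refine ⟨l, hl2, hodd, fun c d hc => ?_⟩
  obtain ⟨B1, hB1⟩ := hn1 l hl2 hodd (by omega) d
  obtain ⟨B2, hB2⟩ := hn2 l hl2 hodd (by omega) c d hc
  refine ⟨B1 + B2, ?_⟩
  intro K _ _ hd φ τ hτ z hz S T ev t m x Φ τ' γ' h lam hx hT hS hΦ hH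
  have hTn : 0 ≤ ∑ v ∈ T, lN v := Finset.sum_nonneg fun v _ => lN_nonneg v
  have hSn : 0 ≤ ∑ v ∈ S, (ev v : ℝ) / (t v : ℝ) * lN v :=
    Finset.sum_nonneg fun v _ => mul_nonneg (div_nonneg (Nat.cast_nonneg _) (Nat.cast_nonneg _))
      (lN_nonneg v)
  have hPn : 0 ≤ ∑ w ∈ Φ, lam w := Finset.sum_nonneg fun w hw => (hΦ w hw).2.2.1
  have hH' : Real.log (Height.mulHeight (x 0))
      ≤ max σ 0 * (∑ v ∈ T, lN v + ∑ v ∈ S, (ev v : ℝ) / (t v : ℝ) * lN v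
        + ∑ w ∈ Φ, lam w) :=
    hH.trans (mul_le_mul_of_nonneg_right (le_max_left _ _)
      (add_nonneg (add_nonneg hTn hSn) hPn))
  by_cases hcase : ∑ w ∈ Φ, lam w
      ≤ ∑ v ∈ T, lN v + ∑ v ∈ S, (ev v : ℝ) / (t v : ℝ) * lN v
  · have hx' : ∀ i : SZG.Idx g, S.Nonempty ∨ i.2 = 0 → x i ≠ 0 ∧
        ∃ μ : ℂ, ∀ ab, φ (x i ab) = μ * Vab τ ab.1 ab.2 (SZG.gam τ z l i) :=
      fun i hi => hx i (hi.imp Or.inl id)
    have hH2 : Real.log (Height.mulHeight (x 0))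
        ≤ 2 * max σ 0 * (∑ v ∈ T, lN v + ∑ v ∈ S, (ev v : ℝ) / (t v : ℝ) * lN v) := by
      refine hH'.trans ?_
      nlinarith [mul_le_mul_of_nonneg_left hcase hσ]
    rcases hB2 K hd φ τ hτ z hz S T ev t m x hx' hT hS hH2 with
      ⟨M, hM1, hM2, hM3⟩ | ⟨hSne, W, hW1, hW2, hW3, ⟨M, hM1, hM2, hM3⟩, k, hk1, hk2, hk3⟩
    · exact Or.inl ⟨M, hM1, by omega, hM3⟩
    · exact Or.inr ⟨Or.inl hSne, W, hW1, hW2, hW3, ⟨M, hM1, by omega, hM3⟩, k, hk1, by omega, hk3⟩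
  · push Not at hcase
    have hne : Φ.Nonempty := by
      by_contra hne
      rw [Finset.not_nonempty_iff_eq_empty] at hne
      rw [hne, Finset.sum_empty] at hcase
      linarith
    have hx' : ∀ i : SZG.Idx g, x i ≠ 0 ∧
        ∃ μ : ℂ, ∀ ab, φ (x i ab) = μ * Vab τ ab.1 ab.2 (SZG.gam τ z l i) :=
      fun i => hx i (Or.inl (Or.inr hne))
    have hH2 : Real.log (Height.mulHeight (x 0)) ≤ 2 * max σ 0 * ∑ w ∈ Φ, lam w := by
      refine hH'.trans ?_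
      nlinarith [mul_le_mul_of_nonneg_left hcase.le hσ]
    rcases hB1 K hd φ τ hτ z hz x (fun i => (hx' i).1) (fun i => (hx' i).2) Φ τ' γ' h lam hΦ hH2
      with ⟨M, hM1, hM2, hM3⟩ | ⟨W, hW1, hW2, hW3, ⟨M, hM1, hM2, hM3⟩, k, hk1, hk2, hk3⟩
    · exact Or.inl ⟨M, hM1, by omega, hM3⟩
    · exact Or.inr ⟨Or.inr hne, W, hW1, hW2, hW3, ⟨M, hM1, by omega, hM3⟩, k, hk1, by omega, hk3⟩

/-- The same for the form `ArqStatement` (`ARC/DefsP.lean`). -/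
theorem arq (hA : ArpStatement) (hF : FinAllStatement) : ArqStatement := by
  intro g σ G
  have hσ : 0 ≤ max σ 0 := le_max_right _ _
  obtain ⟨n1, hn1⟩ := hA g (2 * max σ 0)
  obtain ⟨n2, hn2⟩ := hF g (2 * max σ 0) G
  obtain ⟨l, hl1, hl2⟩ := Nat.exists_infinite_primes (n1 + n2 + 3)
  have hodd : Odd l := hl2.odd_of_ne_two (by omega)
  refine ⟨l, hl2, hodd, fun c d hc => ?_⟩
  obtain ⟨B1, hB1⟩ := hn1 l hl2 hodd (by omega) d
  obtain ⟨B2, hB2⟩ := hn2 l hl2 hodd (by omega) c d hc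
  refine ⟨B1 + B2, ?_⟩
  intro K _ _ hd φ τ hτ z hz S T ev t m Φ tw gw hw rw' x hx hT hS hΦ hH
  have hTn : 0 ≤ ∑ v ∈ T, lN v := Finset.sum_nonneg fun v _ => lN_nonneg v
  have hSn : 0 ≤ ∑ v ∈ S, (ev v : ℝ) / (t v : ℝ) * lN v :=
    Finset.sum_nonneg fun v _ => mul_nonneg (div_nonneg (Nat.cast_nonneg _) (Nat.cast_nonneg _))
      (lN_nonneg v)
  have hPn : 0 ≤ ∑ w ∈ Φ, rw' w := Finset.sum_nonneg fun w hw => (hΦ w hw).r0
  have hH' : Real.log (Height.mulHeight (x 0))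
      ≤ max σ 0 * (∑ v ∈ T, lN v + ∑ v ∈ S, (ev v : ℝ) / (t v : ℝ) * lN v
        + ∑ w ∈ Φ, rw' w) :=
    hH.trans (mul_le_mul_of_nonneg_right (le_max_left _ _)
      (add_nonneg (add_nonneg hTn hSn) hPn))
  by_cases hcase : ∑ w ∈ Φ, rw' w
      ≤ ∑ v ∈ T, lN v + ∑ v ∈ S, (ev v : ℝ) / (t v : ℝ) * lN v
  · have hx' : ∀ i : SZG.Idx g, S.Nonempty ∨ i.2 = 0 → x i ≠ 0 ∧
        ∃ μ : ℂ, ∀ ab, φ (x i ab) = μ * Vab τ ab.1 ab.2 (SZG.gam τ z l i) :=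
      fun i hi => hx i (hi.imp Or.inl id)
    have hH2 : Real.log (Height.mulHeight (x 0))
        ≤ 2 * max σ 0 * (∑ v ∈ T, lN v + ∑ v ∈ S, (ev v : ℝ) / (t v : ℝ) * lN v) := by
      refine hH'.trans ?_
      nlinarith [mul_le_mul_of_nonneg_left hcase hσ]
    rcases hB2 K hd φ τ hτ z hz S T ev t m x hx' hT hS hH2 with
      ⟨M, hM1, hM2, hM3⟩ | ⟨hSne, W, hW1, hW2, hW3, ⟨M, hM1, hM2, hM3⟩, k, hk1, hk2, hk3⟩
    · exact Or.inl ⟨M, hM1, by omega, hM3⟩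
    · exact Or.inr ⟨Or.inl hSne, W, hW1, hW2, hW3, ⟨M, hM1, by omega, hM3⟩, k, hk1, by omega, hk3⟩
  · push Not at hcase
    have hne : Φ.Nonempty := by
      by_contra hne
      rw [Finset.not_nonempty_iff_eq_empty] at hne
      rw [hne, Finset.sum_empty] at hcase
      linarith
    have hx' : ∀ i : SZG.Idx g, x i ≠ 0 ∧
        ∃ μ : ℂ, ∀ ab, φ (x i ab) = μ * Vab τ ab.1 ab.2 (SZG.gam τ z l i) :=
      fun i => hx i (Or.inl (Or.inr hne))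
    have hH2 : Real.log (Height.mulHeight (x 0)) ≤ 2 * max σ 0 * ∑ w ∈ Φ, rw' w := by
      refine hH'.trans ?_
      nlinarith [mul_le_mul_of_nonneg_left hcase.le hσ]
    rcases hB1 K hd φ τ hτ z hz x (fun i => (hx' i).1) (fun i => (hx' i).2) Φ tw gw hw rw' hΦ hH2
      with ⟨M, hM1, hM2, hM3⟩ | ⟨W, hW1, hW2, hW3, ⟨M, hM1, hM2, hM3⟩, k, hk1, hk2, hk3⟩
    · exact Or.inl ⟨M, hM1, by omega, hM3⟩
    · exact Or.inr ⟨Or.inr hne, W, hW1, hW2, hW3, ⟨M, hM1, by omega, hM3⟩, k, hk1, by omega, hk3⟩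

end Pool.Agent.ARC.H49
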