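import Pool.Agent.ARC.StmtsU

/-!
Squad ARC, row DC1: decay of an entire function with a quasi-period and Gaussian growth in the
imaginary direction.
-/

namespace Pool.Agent.ARC.H49

open Complex MeasureTheory

/-- Shift of the contour. -/
theorem dc1_shift (F : ℂ → ℂ) (hF : Differentiable ℂ F) (hp : ∀ s, F (s + 1) = F s) (θ : ℝ) :
    ∫ x in (0 : ℝ)..1, F x = ∫ x in (0 : ℝ)..1, F (x + θ * I) := by
  have h := Complex.integral_boundary_rect_eq_zero_of_differentiableOn F 0 (1 + θ * I)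
    hF.differentiableOn
  have e1 : (1 + θ * I : ℂ).re = 1 := by simp
  have e2 : (1 + θ * I : ℂ).im = θ := by simp
  rw [e1, e2, Complex.zero_re, Complex.zero_im] at h
  have e3 : ∀ y : ℝ, F (((1 : ℝ) : ℂ) + y * I) = F (((0 : ℝ) : ℂ) + y * I) := by
    intro y
    rw [← hp (((0 : ℝ) : ℂ) + y * I)]
    congr 1
    push_cast
    ring
  rw [funext e3] at h
  have e4 : ∀ x : ℝ, F ((x : ℂ) + ((0 : ℝ) : ℂ) * I) = F x := by
    intro x
    congr 1
    push_cast
    ring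
  rw [funext e4] at h
  rw [add_sub_cancel_right] at h
  exact sub_eq_zero.1 h

/-- The bound for the Fourier coefficients. -/
theorem dc1_coef (H : ℂ → ℂ) (hH : Differentiable ℂ H) (hp : ∀ s, H (s + 1) = H s)
    (A c ρ : ℝ) (hρ : 0 < ρ)
    (hb : ∀ s : ℂ, ‖H s‖ ≤ A * Real.exp (2 * Real.pi * s.im * c + Real.pi * ρ * s.im ^ 2)) (m : ℤ) :
    ‖∫ x in (0 : ℝ)..1, H x * cexp (-(2 * Real.pi * I * (m : ℂ) * (x : ℂ)))‖
      ≤ A * Real.exp (-(Real.pi * ((m : ℝ) + c) ^ 2 / ρ)) := by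
  have hd : Differentiable ℂ (fun s : ℂ => H s * cexp (-(2 * Real.pi * I * (m : ℂ) * s))) := by
    fun_prop
  have hper : ∀ s : ℂ, (fun s : ℂ => H s * cexp (-(2 * Real.pi * I * (m : ℂ) * s))) (s + 1)
      = (fun s : ℂ => H s * cexp (-(2 * Real.pi * I * (m : ℂ) * s))) s := by
    intro s
    show H (s + 1) * cexp (-(2 * Real.pi * I * (m : ℂ) * (s + 1)))
      = H s * cexp (-(2 * Real.pi * I * (m : ℂ) * s))
    rw [hp]
    congr 1
    have e : -(2 * Real.pi * I * (m : ℂ) * (s + 1))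
        = -(2 * Real.pi * I * (m : ℂ) * s) + ((-m : ℤ) : ℂ) * (2 * Real.pi * I) := by
      push_cast
      ring
    rw [e, Complex.exp_add, Complex.exp_int_mul_two_pi_mul_I, mul_one]
  have h1 := dc1_shift _ hd hper (-(((m : ℝ) + c) / ρ))
  rw [h1]
  have h2 : ∀ x ∈ Set.uIoc (0 : ℝ) 1,
      ‖H (x + ((-(((m : ℝ) + c) / ρ) : ℝ) : ℂ) * I)
        * cexp (-(2 * Real.pi * I * (m : ℂ) * (x + ((-(((m : ℝ) + c) / ρ) : ℝ) : ℂ) * I)))‖
      ≤ A * Real.exp (-(Real.pi * ((m : ℝ) + c) ^ 2 / ρ)) := by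
    intro x _
    rw [norm_mul, Complex.norm_exp]
    have e1 : (x + ((-(((m : ℝ) + c) / ρ) : ℝ) : ℂ) * I).im = -(((m : ℝ) + c) / ρ) := by simp
    have e2 : (-(2 * Real.pi * I * (m : ℂ) * (x + ((-(((m : ℝ) + c) / ρ) : ℝ) : ℂ) * I))).re
        = 2 * Real.pi * m * (-(((m : ℝ) + c) / ρ)) := by
      have : -(2 * Real.pi * I * (m : ℂ) * (x + ((-(((m : ℝ) + c) / ρ) : ℝ) : ℂ) * I))
          = ((2 * Real.pi * m * (-(((m : ℝ) + c) / ρ)) : ℝ) : ℂ)
            + ((-(2 * Real.pi * m * x) : ℝ) : ℂ) * I := by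
        push_cast
        linear_combination (-(2 * (Real.pi : ℂ) * (m : ℂ) * (-(((m : ℂ) + c) / ρ)))) * Complex.I_sq
      rw [this]
      simp
    have h3 := hb (x + ((-(((m : ℝ) + c) / ρ) : ℝ) : ℂ) * I)
    rw [e1] at h3
    rw [e2]
    refine (mul_le_mul_of_nonneg_right h3 (Real.exp_pos _).le).trans (le_of_eq ?_)
    rw [mul_assoc, ← Real.exp_add]
    congr 2
    field_simp
    ring
  have h3 := intervalIntegral.norm_integral_le_of_norm_le_const h2
  simpa using h3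

theorem dc1_one (H : ℂ → ℂ) (hH : Differentiable ℂ H) (hp : ∀ s, H (s + 1) = H s)
    (A c ρ D : ℝ) (hA : 0 ≤ A) (hρ : 0 < ρ) (hρ1 : ρ ≤ 1) (hD : 0 ≤ D)
    (hb : ∀ s : ℂ, ‖H s‖ ≤ A * Real.exp (2 * Real.pi * s.im * c + Real.pi * ρ * s.im ^ 2))
    (hm : ∀ m : ℤ, D ≤ |(m : ℝ) + c|) :
    ‖H 0‖ ≤ 4 * A * Real.exp (-(Real.pi * D ^ 2 / ρ)) := by
  -- the function on the circle
  have hper : Function.Periodic (fun x : ℝ => H x) 1 := by
    intro x
    show H ((x + 1 : ℝ) : ℂ) = H x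
    rw [← hp x]
    push_cast
    rfl
  have hcont : Continuous (fun x : ℝ => H x) := hH.continuous.comp Complex.continuous_ofReal
  let f : C(AddCircle (1 : ℝ), ℂ) :=
    ⟨hper.lift, continuous_coinduced_dom.mpr hcont⟩
  have hf : ∀ x : ℝ, f (x : AddCircle (1 : ℝ)) = H x := fun x => hper.lift_coe x
  have hg : ∀ m : ℤ, fourierCoeff f m
      = ∫ x in (0 : ℝ)..1, H x * cexp (-(2 * Real.pi * I * (m : ℂ) * (x : ℂ))) := by
    intro m
    rw [fourierCoeff_eq_intervalIntegral f m 0]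
    rw [zero_add, one_div, inv_one, one_smul]
    refine intervalIntegral.integral_congr fun x _ => ?_
    show (fourier (-m) (x : AddCircle (1 : ℝ))) • f (x : AddCircle (1 : ℝ))
      = H x * cexp (-(2 * Real.pi * I * (m : ℂ) * (x : ℂ)))
    rw [hf, fourier_coe_apply, smul_eq_mul, mul_comm]
    congr 2
    push_cast
    ring
  obtain ⟨m0, hm0⟩ : ∃ m0 : ℤ, m0 = ⌊-c⌋ := ⟨_, rfl⟩
  have hm1 : (m0 : ℝ) ≤ -c := by
    rw [hm0]
    exact Int.floor_le _
  have hm2 : -c < (m0 : ℝ) + 1 := by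
    rw [hm0]
    exact Int.lt_floor_add_one _
  have hq : ∀ (X : ℝ) (k : ℕ), D ≤ X → Real.exp (-(Real.pi * (X + k) ^ 2 / ρ))
      ≤ Real.exp (-(Real.pi * D ^ 2 / ρ)) * (1 / 2) ^ k := by
    intro X k hX
    have h1 : (1 / 2 : ℝ) ^ k = Real.exp (-(Real.log 2 * k)) := by
      rw [Real.exp_neg, mul_comm, Real.exp_nat_mul, Real.exp_log (by norm_num), one_div, inv_pow]
    rw [h1, ← Real.exp_add, Real.exp_le_exp]
    have hk0 : (0 : ℝ) ≤ k := Nat.cast_nonneg k
    have hk1 : (k : ℝ) ≤ (k : ℝ) ^ 2 := by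
      rcases Nat.eq_zero_or_pos k with h | h
      · subst h
        norm_num
      · have : (1 : ℝ) ≤ k := by exact_mod_cast h
        nlinarith
    have h2 : D ^ 2 + (k : ℝ) ≤ (X + k) ^ 2 := by nlinarith
    have h3 : Real.log 2 ≤ Real.pi := by
      have := Real.log_two_lt_d9
      have := Real.pi_gt_three
      linarith
    have h4 : Real.pi * (k : ℝ) ≤ Real.pi * (k : ℝ) / ρ := by
      rw [le_div_iff₀ hρ]
      have : 0 ≤ Real.pi * (k : ℝ) := by positivity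
      nlinarith
    have h5 : Real.pi * (D ^ 2 + (k : ℝ)) / ρ ≤ Real.pi * (X + k) ^ 2 / ρ :=
      div_le_div_of_nonneg_right (mul_le_mul_of_nonneg_left h2 Real.pi_pos.le) hρ.le
    have h6 : Real.pi * (D ^ 2 + (k : ℝ)) / ρ = Real.pi * D ^ 2 / ρ + Real.pi * (k : ℝ) / ρ := by
      ring
    have h7 : Real.log 2 * k ≤ Real.pi * k := mul_le_mul_of_nonneg_right h3 hk0
    linarith
  obtain ⟨B, hB⟩ : ∃ B : ℝ, B = A * Real.exp (-(Real.pi * D ^ 2 / ρ)) := ⟨_, rfl⟩
  have hB0 : 0 ≤ B := by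
    rw [hB]
    positivity
  let g : ℤ → ℂ := fun m => fourierCoeff f (m + (m0 + 1))
  have hg1 : ∀ k : ℕ, ‖g (k : ℤ)‖ ≤ B * (1 / 2) ^ k := by
    intro k
    show ‖fourierCoeff f ((k : ℤ) + (m0 + 1))‖ ≤ _
    rw [hg]
    refine (dc1_coef H hH hp A c ρ hρ hb _).trans ?_
    have e : ((((k : ℤ) + (m0 + 1) : ℤ) : ℝ) + c) = ((m0 : ℝ) + 1 + c) + k := by
      push_cast
      ring
    rw [e, hB, mul_assoc]
    refine mul_le_mul_of_nonneg_left (hq _ k ?_) hA
    have := hm (m0 + 1)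
    rw [abs_of_nonneg (by push_cast; linarith)] at this
    push_cast at this
    exact this
  have hg2 : ∀ k : ℕ, ‖g (-((k : ℤ) + 1))‖ ≤ B * (1 / 2) ^ k := by
    intro k
    show ‖fourierCoeff f (-((k : ℤ) + 1) + (m0 + 1))‖ ≤ _
    rw [hg]
    refine (dc1_coef H hH hp A c ρ hρ hb _).trans ?_
    have e : ((((-((k : ℤ) + 1) + (m0 + 1)) : ℤ) : ℝ) + c) ^ 2 = (-((m0 : ℝ) + c) + k) ^ 2 := by
      push_cast
      ring
    rw [e, hB, mul_assoc]
    refine mul_le_mul_of_nonneg_left (hq _ k ?_) hA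
    have := hm m0
    rwa [abs_of_nonpos (by linarith)] at this
  have hs : HasSum (fun k : ℕ => B * (1 / 2 : ℝ) ^ k) (B * 2) :=
    hasSum_geometric_two.mul_left B
  have hsum1 : Summable (fun k : ℕ => g (k : ℤ)) := Summable.of_norm_bounded hs.summable hg1
  have hsum2 : Summable (fun k : ℕ => g (-((k : ℤ) + 1))) :=
    Summable.of_norm_bounded hs.summable hg2
  have hsum : Summable g := Summable.of_nat_of_neg_add_one hsum1 hsum2
  have hsumf : Summable (fun m => fourierCoeff f m) := by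
    have h1 := (Equiv.addRight (m0 + 1)).summable_iff (f := fun m => fourierCoeff f m)
    exact h1.1 hsum
  have h1 := has_pointwise_sum_fourier_series_of_summable hsumf (0 : AddCircle (1 : ℝ))
  have h2 : f (0 : AddCircle (1 : ℝ)) = H 0 := by
    have := hf 0
    simpa using this
  rw [h2] at h1
  have h3 : HasSum (fun m => fourierCoeff f m) (H 0) := by
    have e : (fun m : ℤ => fourierCoeff f m • (fourier m) (0 : AddCircle (1 : ℝ)))
        = fun m => fourierCoeff f m := by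
      funext m
      rw [fourier_eval_zero, smul_eq_mul, mul_one]
    rw [← e]
    exact h1
  have h4 : HasSum g (H 0) := by
    have h5 := (Equiv.addRight (m0 + 1)).hasSum_iff (f := fun m => fourierCoeff f m) (a := H 0)
    exact h5.2 h3
  have h5 : HasSum g (∑' k : ℕ, g (k : ℤ) + ∑' k : ℕ, g (-((k : ℤ) + 1))) :=
    HasSum.of_nat_of_neg_add_one hsum1.hasSum hsum2.hasSum
  rw [h4.unique h5]
  have h6 := tsum_of_norm_bounded hs hg1
  have h7 := tsum_of_norm_bounded hs hg2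
  refine (norm_add_le _ _).trans ?_
  rw [mul_assoc, ← hB]
  linarith

/-- **Row DC1.** -/
theorem dc1 : Dc1Stmt := by
  intro n κ G A c ρ D hn hA hρ hρ1 hD hG hper hb hj
  have hn0 : (0 : ℝ) < n := by exact_mod_cast hn
  have hn1 : (1 : ℝ) ≤ n := by exact_mod_cast hn
  have hnc : (n : ℂ) ≠ 0 := by
    have : n ≠ 0 := by omega
    exact_mod_cast this
  have hH : Differentiable ℂ
      (fun s : ℂ => G (s / (n : ℂ)) * cexp (-(2 * Real.pi * I * (κ : ℂ) * s / (n : ℂ)))) := by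
    have h1 : Differentiable ℂ (fun s : ℂ => G (s / (n : ℂ))) :=
      hG.comp (differentiable_id.div_const _)
    have h2 : Differentiable ℂ
        (fun s : ℂ => cexp (-(2 * Real.pi * I * (κ : ℂ) * s / (n : ℂ)))) := by
      fun_prop
    exact h1.mul h2
  have hp : ∀ s : ℂ,
      (fun s : ℂ => G (s / (n : ℂ)) * cexp (-(2 * Real.pi * I * (κ : ℂ) * s / (n : ℂ)))) (s + 1)
      = (fun s : ℂ => G (s / (n : ℂ)) * cexp (-(2 * Real.pi * I * (κ : ℂ) * s / (n : ℂ)))) s := by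
    intro s
    show G ((s + 1) / (n : ℂ)) * cexp (-(2 * Real.pi * I * (κ : ℂ) * (s + 1) / (n : ℂ)))
      = G (s / (n : ℂ)) * cexp (-(2 * Real.pi * I * (κ : ℂ) * s / (n : ℂ)))
    have e : (s + 1) / (n : ℂ) = s / (n : ℂ) + 1 / (n : ℂ) := by ring
    rw [e, hper, mul_comm (cexp _) (G _), mul_assoc, ← Complex.exp_add]
    congr 2
    ring
  have hb' : ∀ s : ℂ,
      ‖(fun s : ℂ => G (s / (n : ℂ)) * cexp (-(2 * Real.pi * I * (κ : ℂ) * s / (n : ℂ)))) s‖
      ≤ A * Real.exp (2 * Real.pi * s.im * ((c + κ) / n) + Real.pi * (ρ / n) * s.im ^ 2) := by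
    intro s
    show ‖G (s / (n : ℂ)) * cexp (-(2 * Real.pi * I * (κ : ℂ) * s / (n : ℂ)))‖ ≤ _
    rw [norm_mul, Complex.norm_exp]
    have h1 := hb (s / (n : ℂ))
    have e1 : (s / (n : ℂ)).im = s.im / n := Complex.div_natCast_im s n
    have e2 : (-(2 * Real.pi * I * (κ : ℂ) * s / (n : ℂ))).re = 2 * Real.pi * κ * s.im / n := by
      have : -(2 * Real.pi * I * (κ : ℂ) * s / (n : ℂ))
          = ((2 * Real.pi * κ * s.im / n : ℝ) : ℂ) + ((-(2 * Real.pi * κ * s.re / n) : ℝ) : ℂ) * I := by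
        conv_lhs => rw [← Complex.re_add_im s]
        push_cast
        linear_combination (-(2 * (Real.pi : ℂ) * (κ : ℂ) * (s.im : ℂ) / (n : ℂ))) * Complex.I_sq
      rw [this]
      simp
    rw [e1] at h1
    rw [e2]
    refine (mul_le_mul_of_nonneg_right h1 (Real.exp_pos _).le).trans (le_of_eq ?_)
    rw [mul_assoc, ← Real.exp_add]
    congr 2
    field_simp
    ring
  have h := dc1_one _ hH hp A ((c + κ) / n) (ρ / n) (D / n) hA (div_pos hρ hn0)
    ((div_le_one hn0).2 (hρ1.trans hn1)) (div_nonneg hD hn0.le) hb' (by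
      intro m
      have h1 := hj (κ + n * m) ⟨m, by ring⟩
      have e : (m : ℝ) + (c + κ) / n = (((κ + n * m : ℤ) : ℝ) + c) / n := by
        push_cast
        field_simp
        ring
      rw [e, abs_div, abs_of_pos hn0]
      exact div_le_div_of_nonneg_right h1 hn0.le)
  rw [zero_div, mul_zero, zero_div, neg_zero, Complex.exp_zero, mul_one] at h
  have e2 : Real.pi * (D / n) ^ 2 / (ρ / n) = Real.pi * D ^ 2 / ((n : ℝ) * ρ) := by
    field_simp
  rw [e2] at h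
  exact h

end Pool.Agent.ARC.H49
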